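import Mathlib
import Pool.Agent.Y78.BM.Final

/-!
# MP_380ab1_co: the number of `D`-classes of `n × m` Boolean matrices when `n / log m → 0`

`numD n m` is the number `d(n,m)` of `D`-classes of the `n × m` Boolean matrices, and `numUC n`
is the number of families of subsets of an `n`-element set that contain the empty set and are
closed under unions.

As soon as `m ≥ 2 ^ n` the number `d(n,m)` does not depend on `m`, and it equals
`numUC n / n!` up to a relative error of at most `2 / 2 ^ n` (for `n ≥ 62`).  The regime
`n / log m → 0` forces `m ≥ 2 ^ n` eventually, so in that regime `d(n,m) ~ numUC n / n!`.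

Proof idea.  `D`-classes correspond to lattice isomorphism classes of column spaces, and for
`m ≥ 2 ^ n` every union-closed family is a column space.  A family in which no coordinate is a
join of other coordinates has at most `n!` relatives; the other families are counted by the
trace on `n - 1` points.  Conversely a family without symmetries has `n!` relatives, and families
invariant under a fixed nontrivial permutation are shown to be rare by an injection which
replaces the redundant part of the family by the up-closure of an arbitrary set of members of
one level.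
-/

namespace Pool.Agent.Results.MP_380ab1_co.Asymptotics

open Filter Topology Pool.Agent.Y78.BM

/-- The number of `D`-classes of `n × m` Boolean matrices is independent of `m` for `m ≥ 2 ^ n`,
is `numUC n / n!` up to a relative error `2 / 2 ^ n`, and is asymptotic to `numUC n / n!` in the
whole regime `n / log m → 0`. -/
theorem result :
    (∀ n m : ℕ, 2 ^ n ≤ m → numD n m = numD n (2 ^ n)) ∧
    (∀ n m : ℕ, 62 ≤ n → 2 ^ n ≤ m →
      |(numD n m : ℝ) * (n.factorial : ℝ) / (numUC n : ℝ) - 1| ≤ 2 / 2 ^ n) ∧
    (∀ n : ℕ, 2 ^ (∑ j ∈ Finset.range n, j.choose (j / 2)) ≤ numUC n) ∧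
    (∀ ν μ : ℕ → ℕ, Tendsto ν atTop atTop → Tendsto μ atTop atTop →
      Tendsto (fun k => (ν k : ℝ) / Real.log (μ k)) atTop (𝓝 0) →
      Tendsto (fun k => (numD (ν k) (μ k) : ℝ) /
        ((numUC (ν k) : ℝ) / ((ν k).factorial : ℝ))) atTop (𝓝 1)) :=
  ⟨indep, main_bound, numUC_lower, fun _ _ hν hμ h => main_limit hν hμ h⟩

end Pool.Agent.Results.MP_380ab1_co.Asymptotics
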